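import Mathlib

set_option autoImplicit false

namespace Pool.Agent.Results.MP_2579e4_al.NonAmenableLiouville

open scoped Pointwise

/-! ### Definitions of the problem -/

/-- A group is amenable if it carries a left-invariant finitely additive probability measure
defined on all subsets. -/
def IsAmenable (G : Type) [Group G] : Prop :=
  ∃ m : Set G → ℝ, (∀ A : Set G, 0 ≤ m A) ∧ m Set.univ = 1 ∧
    (∀ A B : Set G, Disjoint A B → m (A ∪ B) = m A + m B) ∧
    ∀ (g : G) (A : Set G), m ((fun x : G => g * x) '' A) = m A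

/-- `μ` is a probability measure on the countable set `G`. -/
structure IsProb {G : Type} (μ : G → ℝ) : Prop where
  nonneg : ∀ g : G, 0 ≤ μ g
  hasSum : HasSum μ 1

/-- The support of `μ` generates `G` as a semigroup. -/
def NonDegenerate {G : Type} [Group G] (μ : G → ℝ) : Prop :=
  Subsemigroup.closure {g : G | μ g ≠ 0} = ⊤

/-- The transition probabilities `p_μ(y, z)`, the sum of `μ(g)` over all `g` with `g y = z`. -/
noncomputable def transition {G Y : Type} [Group G] [MulAction G Y] (μ : G → ℝ) (y z : Y) : ℝ :=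
  ∑' g : {g : G // g • y = z}, μ g.1

/-- `μ`-harmonic functions. -/
def IsHarmonic {G Y : Type} [Group G] [MulAction G Y] (μ : G → ℝ) (f : Y → ℝ) : Prop :=
  ∀ y : Y, f y = ∑' z : Y, f z * transition μ y z

/-- The action of `G` on `Y` is `μ`-Liouville. -/
def IsMuLiouville (G Y : Type) [Group G] [MulAction G Y] (μ : G → ℝ) : Prop :=
  ∀ f : Y → ℝ, (∃ C : ℝ, ∀ y : Y, |f y| ≤ C) → IsHarmonic μ f → ∃ c : ℝ, ∀ y : Y, f y = c

/-- The action of `G` on `Y` is Liouville. -/
def IsLiouville (G Y : Type) [Group G] [MulAction G Y] : Prop :=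
  ∃ μ : G → ℝ, IsProb μ ∧ NonDegenerate μ ∧ IsMuLiouville G Y μ

/-- The set of `n`-element subsets of `X`. -/
def Subsets (X : Type) (n : ℕ) : Type := {E : Finset X // E.card = n}

/-- The action on `n`-element subsets, `g · E = g(E)`. -/
instance subsetsAction (G X : Type) [Group G] [MulAction G X] (n : ℕ) :
    MulAction G (Subsets X n) where
  smul g E := ⟨E.1.map (MulAction.toPerm g).toEmbedding, by rw [Finset.card_map]; exact E.2⟩
  one_smul E := by
    apply Subtype.ext
    show E.1.map (MulAction.toPerm (1 : G)).toEmbedding = E.1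
    ext x
    simp
  mul_smul g h E := by
    apply Subtype.ext
    show E.1.map (MulAction.toPerm (g * h)).toEmbedding =
      (E.1.map (MulAction.toPerm h).toEmbedding).map (MulAction.toPerm g).toEmbedding
    ext x
    simp [mul_smul]

/-- The action of `G` on `X` is `n`-Liouville. -/
def IsNLiouville (G X : Type) [Group G] [MulAction G X] (n : ℕ) : Prop :=
  IsLiouville G (Subsets X n)

lemma mem_smul_subsets {G X : Type} [Group G] [MulAction G X] {n : ℕ} (g : G)
    (E : Subsets X n) (x : X) : x ∈ (g • E).1 ↔ ∃ y ∈ E.1, g • y = x := by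
  show x ∈ E.1.map (MulAction.toPerm g).toEmbedding ↔ _
  rw [Finset.mem_map]
  rfl

/-! ### Harmonicity as an average over the group -/

lemma hasSum_harmonic {G Y : Type} [Group G] [MulAction G Y] {μ : G → ℝ} (hμ : IsProb μ)
    {f : Y → ℝ} {M : ℝ} (hf : ∀ y, |f y| ≤ M) (hh : IsHarmonic μ f) (y : Y) :
    HasSum (fun g : G => μ g * f (g • y)) (f y) := by
  have hs : Summable (fun g : G => μ g * f (g • y)) := by
    refine Summable.of_norm_bounded (g := fun g => μ g * M) (hμ.hasSum.summable.mul_right M) ?_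
    intro g
    rw [Real.norm_eq_abs, abs_mul, abs_of_nonneg (hμ.nonneg g)]
    exact mul_le_mul_of_nonneg_left (hf _) (hμ.nonneg g)
  have h1 : HasSum ((fun g : G => μ g * f (g • y)) ∘ (Equiv.sigmaFiberEquiv (fun g : G => g • y)))
      (∑' g, μ g * f (g • y)) := (Equiv.hasSum_iff _).2 hs.hasSum
  have h2 := h1.sigma (g := fun z => f z * transition μ y z) ?_
  · have h3 := h2.tsum_eq
    have h4 := hh y
    rw [h4, h3]
    exact hs.hasSum
  · intro z
    have h5 : HasSum (fun g : {g : G // g • y = z} => f z * μ g.1) (f z * transition μ y z) := by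
      refine HasSum.mul_left _ ?_
      exact (hμ.hasSum.summable.subtype {g : G | g • y = z}).hasSum
    convert h5 using 1
    funext g
    show μ g.1 * f (g.1 • y) = f z * μ g.1
    rw [g.2, mul_comm]

/-! ### The weights -/

/-- The tails of the weights. -/
noncomputable def tau (m : ℕ) : ℝ := 1 / ((m + 1).factorial : ℝ)

lemma tau_pos (m : ℕ) : 0 < tau m := by
  unfold tau
  positivity

lemma tau_zero : tau 0 = 1 := by simp [tau]

lemma tau_succ (m : ℕ) : tau (m + 1) = tau m / (m + 2) := by
  unfold tau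
  rw [Nat.factorial_succ (m + 1)]
  push_cast
  rw [div_div, mul_comm]
  congr 2
  ring

/-- The weights. -/
noncomputable def wt (m : ℕ) : ℝ := tau m - tau (m + 1)

lemma wt_pos (m : ℕ) : 0 < wt m := by
  unfold wt
  rw [tau_succ]
  have h := tau_pos m
  have h2 : tau m / (m + 2) < tau m := by
    apply div_lt_self h
    have : (0 : ℝ) ≤ m := Nat.cast_nonneg m
    linarith
  linarith

lemma sum_wt (m : ℕ) : ∑ i ∈ Finset.range m, wt i = 1 - tau m := by
  induction m with
  | zero => simp [tau_zero]
  | succ m ih => rw [Finset.sum_range_succ, ih]; unfold wt; ring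

lemma tau_le (m : ℕ) : tau m ≤ 1 / (m + 1) := by
  unfold tau
  apply one_div_le_one_div_of_le
  · positivity
  · have : m + 1 ≤ (m + 1).factorial := Nat.self_le_factorial _
    exact_mod_cast this

lemma tau_tendsto : Filter.Tendsto tau Filter.atTop (nhds 0) :=
  squeeze_zero (fun m => (tau_pos m).le) tau_le tendsto_one_div_add_atTop_nhds_zero_nat

lemma hasSum_wt : HasSum wt 1 := by
  rw [hasSum_iff_tendsto_nat_of_nonneg (fun i => (wt_pos i).le)]
  simp_rw [sum_wt]
  have := tau_tendsto.const_sub 1
  simpa using this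

lemma tau_le_one (m : ℕ) : tau m ≤ 1 := by
  have := sum_wt m
  have h : 0 ≤ ∑ i ∈ Finset.range m, wt i := Finset.sum_nonneg (fun i _ => (wt_pos i).le)
  linarith

/-! ### The measure built from a sequence of finite sets -/

open Classical in
/-- The uniform measure on a finite set. -/
noncomputable def unif {G : Type} (S : Finset G) (g : G) : ℝ :=
  if g ∈ S then 1 / (S.card : ℝ) else 0

lemma unif_nonneg {G : Type} (S : Finset G) (g : G) : 0 ≤ unif S g := by
  unfold unif
  split_ifs <;> positivity

lemma hasSum_unif_mul {G : Type} (S : Finset G) (φ : G → ℝ) :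
    HasSum (fun g => unif S g * φ g) ((∑ g ∈ S, φ g) / S.card) := by
  have h : (∑ g ∈ S, φ g) / (S.card : ℝ) = ∑ g ∈ S, unif S g * φ g := by
    rw [Finset.sum_div]
    refine Finset.sum_congr rfl ?_
    intro g hg
    simp only [unif, hg, if_true]
    ring
  rw [h]
  apply hasSum_sum_of_ne_finset_zero
  intro g hg
  simp [unif, hg]

lemma hasSum_unif {G : Type} {S : Finset G} (hS : S.Nonempty) :
    HasSum (unif S) 1 := by
  have h := hasSum_unif_mul S (fun _ => (1 : ℝ))
  have h2 : (S.card : ℝ) ≠ 0 := by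
    have := hS.card_pos
    positivity
  simpa [h2] using h

/-- The measure. -/
noncomputable def mu {G : Type} (S : ℕ → Finset G) (g : G) : ℝ :=
  ∑' i, wt i * unif (S i) g

lemma summable_pair {G : Type} {S : ℕ → Finset G} (hS : ∀ i, (S i).Nonempty) :
    Summable (fun p : ℕ × G => wt p.1 * unif (S p.1) p.2) := by
  rw [summable_prod_of_nonneg]
  · refine ⟨fun i => ((hasSum_unif (hS i)).mul_left (wt i)).summable, ?_⟩
    have : (fun i => ∑' g, wt i * unif (S i) g) = wt := by
      funext i
      have := ((hasSum_unif (hS i)).mul_left (wt i)).tsum_eq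
      simpa using this
    simp only [this]
    exact hasSum_wt.summable
  · intro p
    exact mul_nonneg (wt_pos _).le (unif_nonneg _ _)

lemma summable_fst {G : Type} {S : ℕ → Finset G} (hS : ∀ i, (S i).Nonempty) (g : G) :
    Summable (fun i => wt i * unif (S i) g) :=
  (summable_pair hS).comp_injective (i := fun i : ℕ => (i, g)) (fun _ _ h => (Prod.mk.inj h).1)

lemma hasSum_mu {G : Type} {S : ℕ → Finset G} (hS : ∀ i, (S i).Nonempty) :
    HasSum (mu S) 1 := by
  have h1 := summable_pair hS
  have h2 : HasSum (fun i => wt i) (∑' p : ℕ × G, wt p.1 * unif (S p.1) p.2) := by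
    refine h1.hasSum.prod_fiberwise ?_
    intro i
    have := (hasSum_unif (hS i)).mul_left (wt i)
    simpa using this
  have h3 := h2.unique hasSum_wt
  have h4 : HasSum (fun p : G × ℕ => wt p.2 * unif (S p.2) p.1) 1 := by
    have := (Equiv.prodComm G ℕ).hasSum_iff.2 h1.hasSum
    rw [h3] at this
    exact this
  exact h4.prod_fiberwise (fun g => (summable_fst hS g).hasSum)

lemma mu_nonneg {G : Type} (S : ℕ → Finset G) (g : G) : 0 ≤ mu S g :=
  tsum_nonneg (fun i => mul_nonneg (wt_pos i).le (unif_nonneg _ _))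

lemma mu_pos {G : Type} {S : ℕ → Finset G} (hS : ∀ i, (S i).Nonempty) {i : ℕ} {g : G}
    (h : g ∈ S i) : 0 < mu S g := by
  have h1 : wt i * unif (S i) g ≤ mu S g :=
    (summable_fst hS g).le_tsum i (fun j _ => mul_nonneg (wt_pos j).le (unif_nonneg _ _))
  have h2 : 0 < unif (S i) g := by
    have := (hS i).card_pos
    simp only [unif, h, if_true]
    positivity
  exact lt_of_lt_of_le (mul_pos (wt_pos i) h2) h1

lemma mu_ge {G : Type} {S : ℕ → Finset G} (hS : ∀ i, (S i).Nonempty) (m : ℕ) (g : G) :
    ∑ i ∈ Finset.range m, wt i * unif (S i) g ≤ mu S g :=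
  (summable_fst hS g).sum_le_tsum _ (fun j _ => mul_nonneg (wt_pos j).le (unif_nonneg _ _))

lemma isProb_mu {G : Type} {S : ℕ → Finset G} (hS : ∀ i, (S i).Nonempty) : IsProb (mu S) :=
  ⟨mu_nonneg S, hasSum_mu hS⟩

/-- The decomposition of a harmonic function. -/
lemma decomposition {G Y : Type} [Group G] [MulAction G Y] {S : ℕ → Finset G}
    (hS : ∀ i, (S i).Nonempty) {f : Y → ℝ} {M : ℝ} (hf : ∀ y, |f y| ≤ M)
    (hh : IsHarmonic (mu S) f) (m : ℕ) (y : Y) :
    |f y - ∑ i ∈ Finset.range m, wt i * ((∑ g ∈ S i, f (g • y)) / (S i).card)| ≤ M * tau m := by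
  have h1 := hasSum_harmonic (isProb_mu hS) hf hh y
  have h2 : HasSum (fun g => ∑ i ∈ Finset.range m, wt i * (unif (S i) g * f (g • y)))
      (∑ i ∈ Finset.range m, wt i * ((∑ g ∈ S i, f (g • y)) / (S i).card)) := by
    apply hasSum_sum
    intro i _
    exact (hasSum_unif_mul (S i) (fun g => f (g • y))).mul_left (wt i)
  have h3 := h1.sub h2
  have h4 : HasSum (fun g => (mu S g - ∑ i ∈ Finset.range m, wt i * unif (S i) g) * M)
      ((1 - (1 - tau m)) * M) := by
    refine HasSum.mul_right M ?_
    refine (hasSum_mu hS).sub ?_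
    rw [← sum_wt m]
    apply hasSum_sum
    intro i _
    have := (hasSum_unif (hS i)).mul_left (wt i)
    simpa using this
  have h5 : (1 - (1 - tau m)) * M = M * tau m := by ring
  rw [h5] at h4
  rw [← h3.tsum_eq]
  have h6 : ∀ g, ‖mu S g * f (g • y) - ∑ i ∈ Finset.range m, wt i * (unif (S i) g * f (g • y))‖ ≤
      (mu S g - ∑ i ∈ Finset.range m, wt i * unif (S i) g) * M := by
    intro g
    have h7 : mu S g * f (g • y) - ∑ i ∈ Finset.range m, wt i * (unif (S i) g * f (g • y)) =
        (mu S g - ∑ i ∈ Finset.range m, wt i * unif (S i) g) * f (g • y) := by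
      rw [sub_mul, Finset.sum_mul]
      congr 1
      exact Finset.sum_congr rfl (fun i _ => by ring)
    rw [h7, Real.norm_eq_abs, abs_mul, abs_of_nonneg (sub_nonneg.2 (mu_ge hS m g))]
    exact mul_le_mul_of_nonneg_left (hf _) (sub_nonneg.2 (mu_ge hS m g))
  exact tsum_of_norm_bounded h4 h6

/-! ### The coupling argument -/

/-- One step of the estimate: average over `S i` for `i < m` of values near `s`. -/
lemma step_estimate {G Y : Type} [Group G] [MulAction G Y] {S : ℕ → Finset G}
    (hS : ∀ i, (S i).Nonempty) {f : Y → ℝ} (m : ℕ) (y : Y) (s r : ℝ)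
    (h : ∀ i < m, ∀ g ∈ S i, |f (g • y) - s| ≤ r) :
    |∑ i ∈ Finset.range m, wt i * ((∑ g ∈ S i, f (g • y)) / (S i).card) - (1 - tau m) * s| ≤
      (1 - tau m) * r := by
  rw [← sum_wt m, Finset.sum_mul, Finset.sum_mul, ← Finset.sum_sub_distrib]
  refine (Finset.abs_sum_le_sum_abs _ _).trans (Finset.sum_le_sum ?_)
  intro i hi
  rw [Finset.mem_range] at hi
  rw [← mul_sub, abs_mul, abs_of_pos (wt_pos i)]
  refine mul_le_mul_of_nonneg_left ?_ (wt_pos i).le
  have hc : (0 : ℝ) < (S i).card := by exact_mod_cast (hS i).card_pos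
  have h1 : (∑ g ∈ S i, f (g • y)) / (S i).card - s =
      (∑ g ∈ S i, (f (g • y) - s)) / (S i).card := by
    rw [Finset.sum_sub_distrib, Finset.sum_const, nsmul_eq_mul]
    field_simp
  rw [h1, abs_div, abs_of_pos hc, div_le_iff₀ hc]
  refine (Finset.abs_sum_le_sum_abs _ _).trans ?_
  refine (Finset.sum_le_card_nsmul _ _ r (fun g hg => h i hi g hg)).trans ?_
  rw [nsmul_eq_mul, mul_comm]

/-- The recursive error bound. -/
lemma coupling {G Y : Type} [Group G] [MulAction G Y] {S : ℕ → Finset G}
    (hS : ∀ i, (S i).Nonempty) {f : Y → ℝ} {M : ℝ} (hf : ∀ y, |f y| ≤ M)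
    (hh : IsHarmonic (mu S) f) (m : ℕ) (D : ℕ → Set Y) (b : ℝ)
    (hb : ∀ j, ∀ y ∈ D j, wt m * ((∑ g ∈ S m, f (g • y)) / (S m).card) = b)
    (hD : ∀ j, ∀ y ∈ D (j + 1), ∀ i < m, ∀ g ∈ S i, g • y ∈ D j) :
    ∀ j, ∃ s : ℝ, ∀ y ∈ D j, |f y - s| ≤ M * ((1 - tau m) ^ j + tau (m + 1) / tau m) := by
  have hM : ∀ y : Y, 0 ≤ M := fun y => (abs_nonneg _).trans (hf y)
  intro j
  induction j with
  | zero =>
      refine ⟨0, fun y _ => ?_⟩
      rw [sub_zero, pow_zero]
      refine (hf y).trans ?_
      have h1 := tau_pos (m + 1)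
      have h2 := tau_pos m
      have h3 : 0 ≤ tau (m + 1) / tau m := by positivity
      nlinarith [hM y]
  | succ j ih =>
      obtain ⟨s, hs⟩ := ih
      refine ⟨(1 - tau m) * s + b, fun y hy => ?_⟩
      have h1 := decomposition hS hf hh (m + 1) y
      rw [Finset.sum_range_succ, hb (j + 1) y hy] at h1
      have h2 := step_estimate hS (f := f) m y s
        (M * ((1 - tau m) ^ j + tau (m + 1) / tau m))
        (fun i hi g hg => hs _ (hD j y hy i hi g hg))
      have h3 : M * ((1 - tau m) ^ (j + 1) + tau (m + 1) / tau m) =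
          (1 - tau m) * (M * ((1 - tau m) ^ j + tau (m + 1) / tau m)) + M * tau (m + 1) := by
        have := (tau_pos m).ne'
        field_simp
        ring
      rw [h3]
      have h4 := abs_add_le
        (f y - (∑ i ∈ Finset.range m, wt i * ((∑ g ∈ S i, f (g • y)) / (S i).card) + b))
        (∑ i ∈ Finset.range m, wt i * ((∑ g ∈ S i, f (g • y)) / (S i).card) - (1 - tau m) * s)
      have h5 : f y - (∑ i ∈ Finset.range m, wt i * ((∑ g ∈ S i, f (g • y)) / (S i).card) + b) +
        (∑ i ∈ Finset.range m, wt i * ((∑ g ∈ S i, f (g • y)) / (S i).card) - (1 - tau m) * s) =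
        f y - ((1 - tau m) * s + b) := by ring
      rw [h5] at h4
      linarith

/-! ### The engine -/

section Engine

open Classical in
theorem engine {G X : Type} [Group G] [MulAction G X]
    (gs : ℕ → G) (hgs : Function.Surjective gs)
    (xs : ℕ → Finset X) (hmono : Monotone xs) (hxs : ∀ x : X, ∃ i, x ∈ xs i)
    (K : Finset X → Finset G) (hKne : ∀ F, (K F).Nonempty)
    (hK : ∀ (F : Finset X) (n : ℕ) (E E' : Subsets X n), E.1 ⊆ F → E'.1 ⊆ F →
      ∀ φ : Subsets X n → ℝ, ∑ g ∈ K F, φ (g • E) = ∑ g ∈ K F, φ (g • E')) :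
    ∃ μ : G → ℝ, IsProb μ ∧ (∀ g, 0 < μ g) ∧ ∀ n, IsMuLiouville G (Subsets X n) μ := by
  have hN : ∀ m : ℕ, ∃ N : ℕ, (1 - tau m) ^ N < 1 / ((m : ℝ) + 1) := by
    intro m
    apply exists_pow_lt_of_lt_one
    · positivity
    · have := tau_pos m
      linarith
  choose N hN using hN
  let bigF : ℕ → Finset G → Finset X := fun m T => ((insert 1 T) ^ (N m)) • (xs m)
  let nxt : ℕ → Finset G → Finset G := fun m T => if Even m then K (bigF m T) else {gs (m / 2)}
  let TT : ℕ → Finset G := fun m => Nat.rec ∅ (fun m T => T ∪ nxt m T) m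
  let S : ℕ → Finset G := fun m => nxt m (TT m)
  have hTsucc : ∀ m, TT (m + 1) = TT m ∪ S m := fun m => rfl
  have hTsub : ∀ m, ∀ i < m, S i ⊆ TT m := by
    intro m
    induction m with
    | zero => intro i hi; omega
    | succ m ih =>
        intro i hi
        rw [hTsucc]
        rcases Nat.lt_succ_iff_lt_or_eq.1 hi with h | h
        · exact (ih i h).trans Finset.subset_union_left
        · subst h
          exact Finset.subset_union_right
  have hSne : ∀ i, (S i).Nonempty := by
    intro i
    show (if Even i then K (bigF i (TT i)) else {gs (i / 2)}).Nonempty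
    split_ifs
    · exact hKne _
    · exact Finset.singleton_nonempty _
  refine ⟨mu S, isProb_mu hSne, ?_, ?_⟩
  · intro g
    obtain ⟨k, rfl⟩ := hgs g
    apply mu_pos hSne (i := 2 * k + 1)
    show gs k ∈ (if Even (2 * k + 1) then K (bigF (2 * k + 1) (TT (2 * k + 1)))
      else {gs ((2 * k + 1) / 2)})
    have h1 : ¬ Even (2 * k + 1) := by
      rw [Nat.not_even_iff_odd]
      exact odd_two_mul_add_one k
    have h2 : (2 * k + 1) / 2 = k := by omega
    rw [if_neg h1, h2]
    exact Finset.mem_singleton_self _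
  · intro n f hf hh
    obtain ⟨M, hf⟩ := hf
    have key : ∀ (y0 y1 : Subsets X n) (m : ℕ), Even m → y0.1 ⊆ xs m → y1.1 ⊆ xs m →
        |f y0 - f y1| ≤ 4 * M / (m + 1) := by
      intro y0 y1 m hm h0 h1
      set T := insert 1 (TT m) with hT
      have hSm : S m = K (T ^ (N m) • xs m) := by
        show (if Even m then K (bigF m (TT m)) else {gs (m / 2)}) = _
        rw [if_pos hm]
      let D : ℕ → Set (Subsets X n) := fun j =>
        {E | ∀ w ∈ T ^ j, (w • E).1 ⊆ T ^ (N m) • xs m}
      have hone : ∀ j, (1 : G) ∈ T ^ j := fun j =>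
        Finset.one_mem_pow (Finset.mem_insert_self _ _)
      have hDsub : ∀ j, ∀ E ∈ D j, E.1 ⊆ T ^ (N m) • xs m := by
        intro j E hE
        have := hE 1 (hone j)
        rwa [one_smul] at this
      have hmemD : ∀ E : Subsets X n, E.1 ⊆ xs m → E ∈ D (N m) := by
        intro E hE w hw x hx
        rw [mem_smul_subsets] at hx
        obtain ⟨x', hx', rfl⟩ := hx
        exact Finset.smul_mem_smul hw (hE hx')
      have h0D := hmemD y0 h0
      have h1D := hmemD y1 h1
      have hb : ∀ j, ∀ y ∈ D j, wt m * ((∑ g ∈ S m, f (g • y)) / (S m).card) =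
          wt m * ((∑ g ∈ S m, f (g • y0)) / (S m).card) := by
        intro j y hy
        have : ∑ g ∈ S m, f (g • y) = ∑ g ∈ S m, f (g • y0) := by
          rw [hSm]
          exact hK _ n y y0 (hDsub j y hy) (hDsub _ y0 h0D) f
        rw [this]
      have hD : ∀ j, ∀ y ∈ D (j + 1), ∀ i < m, ∀ g ∈ S i, g • y ∈ D j := by
        intro j y hy i hi g hg w hw
        rw [← mul_smul]
        apply hy
        rw [pow_succ]
        refine Finset.mul_mem_mul hw ?_
        exact Finset.mem_insert_of_mem (hTsub m i hi hg)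
      obtain ⟨s, hs⟩ := coupling hSne hf hh m D _ hb hD (N m)
      have e0 := hs y0 h0D
      have e1 := hs y1 h1D
      have hM : 0 ≤ M := (abs_nonneg _).trans (hf y0)
      have e2 : |f y0 - f y1| ≤ |f y0 - s| + |f y1 - s| := by
        have : f y0 - f y1 = (f y0 - s) - (f y1 - s) := by ring
        rw [this]
        exact abs_sub _ _
      have e3 : tau (m + 1) / tau m ≤ 1 / ((m : ℝ) + 1) := by
        rw [tau_succ]
        have h1 := tau_pos m
        rw [div_div, div_le_div_iff₀ (by positivity) (by positivity)]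
        nlinarith
      have e4 : M * ((1 - tau m) ^ (N m) + tau (m + 1) / tau m) ≤
          M * (1 / ((m : ℝ) + 1) + 1 / ((m : ℝ) + 1)) :=
        mul_le_mul_of_nonneg_left (add_le_add (hN m).le e3) hM
      have e5 : 4 * M / ((m : ℝ) + 1) = 2 * (M * (1 / ((m : ℝ) + 1) + 1 / ((m : ℝ) + 1))) := by
        field_simp
        ring
      rw [e5]
      linarith
    have hall : ∀ y0 y1 : Subsets X n, f y0 = f y1 := by
      intro y0 y1
      have hex : ∃ m0, y0.1 ∪ y1.1 ⊆ xs m0 := by
        have : ∀ A : Finset X, ∃ m0, A ⊆ xs m0 := by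
          intro A
          induction A using Finset.induction_on with
          | empty => exact ⟨0, Finset.empty_subset _⟩
          | insert a A _ ih =>
              obtain ⟨m1, h1⟩ := ih
              obtain ⟨m2, h2⟩ := hxs a
              refine ⟨max m1 m2, ?_⟩
              intro x hx
              rcases Finset.mem_insert.1 hx with h | h
              · subst h
                exact hmono (le_max_right _ _) h2
              · exact hmono (le_max_left _ _) (h1 h)
        exact this _
      obtain ⟨m0, hm0⟩ := hex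
      have hM : 0 ≤ M := (abs_nonneg _).trans (hf y0)
      by_contra hne
      have hpos : 0 < |f y0 - f y1| := abs_pos.2 (sub_ne_zero.2 hne)
      obtain ⟨k, hk⟩ := exists_nat_gt (4 * M / |f y0 - f y1|)
      have h1 := key y0 y1 (2 * (m0 + k)) (even_two_mul _)
        ((Finset.subset_union_left.trans hm0).trans (hmono (by omega)))
        ((Finset.subset_union_right.trans hm0).trans (hmono (by omega)))
      rw [div_lt_iff₀ hpos] at hk
      rw [le_div_iff₀ (by positivity)] at h1
      push_cast at h1
      have h2 : (0 : ℝ) ≤ m0 := Nat.cast_nonneg _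
      have h3 : (0 : ℝ) ≤ k := Nat.cast_nonneg _
      nlinarith [mul_nonneg h2 hpos.le, mul_nonneg h3 hpos.le]
    by_cases hne : Nonempty (Subsets X n)
    · obtain ⟨y0⟩ := hne
      exact ⟨f y0, fun y => hall y y0⟩
    · exact ⟨0, fun y => (hne ⟨y⟩).elim⟩

end Engine

/-! ### The group of permutations that are almost left translations -/

section AlmostTranslations

open scoped Classical

variable (H : Type) [Group H]

/-- The permutations of `H` agreeing with a left translation outside a finite set. -/
def almostTranslations : Subgroup (Equiv.Perm H) where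
  carrier := {σ | ∃ h : H, {x : H | σ x ≠ h * x}.Finite}
  one_mem' := ⟨1, by simp⟩
  mul_mem' := by
    rintro σ τ ⟨h, hσ⟩ ⟨k, hτ⟩
    refine ⟨h * k, (hτ.union (hσ.preimage (τ.injective.injOn))).subset ?_⟩
    intro x hx
    by_contra hcon
    simp only [Set.mem_union, Set.mem_preimage, Set.mem_ofPred_eq, not_or, not_not] at hcon
    apply hx
    show σ (τ x) = h * k * x
    rw [hcon.2, hcon.1, mul_assoc]
  inv_mem' := by
    rintro σ ⟨h, hσ⟩
    refine ⟨h⁻¹, (hσ.image σ).subset ?_⟩
    intro x hx
    refine ⟨σ⁻¹ x, ?_, by simp⟩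
    intro hcon
    apply hx
    have hcon' : x = h * σ⁻¹ x := by
      rw [← hcon]
      exact (σ.apply_symm_apply x).symm
    rw [eq_inv_mul_iff_mul_eq]
    exact hcon'.symm

variable {H}

lemma translation_unique [Infinite H] {σ : Equiv.Perm H} {h k : H}
    (h1 : {x : H | σ x ≠ h * x}.Finite) (h2 : {x : H | σ x ≠ k * x}.Finite) : h = k := by
  obtain ⟨x, hx⟩ := (h1.union h2).infinite_compl.nonempty
  simp only [Set.mem_compl_iff, Set.mem_union, Set.mem_ofPred_eq, not_or, not_not] at hx
  exact mul_right_cancel (hx.1.symm.trans hx.2)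

/-- The translation part. -/
noncomputable def trPart (σ : almostTranslations H) : H := Classical.choose σ.2

lemma trPart_spec (σ : almostTranslations H) :
    {x : H | σ.1 x ≠ trPart σ * x}.Finite := Classical.choose_spec σ.2

/-- The translation part as a homomorphism. -/
noncomputable def trHom [Infinite H] : almostTranslations H →* H where
  toFun := trPart
  map_one' := by
    apply translation_unique (trPart_spec 1)
    simp
  map_mul' σ τ := by
    apply translation_unique (trPart_spec (σ * τ))
    refine ((trPart_spec τ).union ((trPart_spec σ).preimage (τ.1.injective.injOn))).subset ?_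
    intro x hx
    by_contra hcon
    simp only [Set.mem_union, Set.mem_preimage, Set.mem_ofPred_eq, not_or, not_not] at hcon
    apply hx
    show σ.1 (τ.1 x) = trPart σ * trPart τ * x
    rw [hcon.2, hcon.1, mul_assoc]

lemma trHom_surjective [Infinite H] : Function.Surjective (trHom (H := H)) := by
  intro h
  refine ⟨⟨Equiv.mulLeft h, h, by simp⟩, ?_⟩
  apply translation_unique (trPart_spec _)
  simp

/-- The finite graph of the exceptional set. -/
noncomputable def excGraph (σ : almostTranslations H) : Finset (H × H) :=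
  (trPart_spec σ).toFinset.image (fun x => (x, σ.1 x))

lemma mem_excGraph (σ : almostTranslations H) (x y : H) :
    (x, y) ∈ excGraph σ ↔ σ.1 x ≠ trPart σ * x ∧ σ.1 x = y := by
  unfold excGraph
  rw [Finset.mem_image]
  constructor
  · rintro ⟨z, hz, h⟩
    obtain ⟨rfl, rfl⟩ := Prod.mk.inj h
    exact ⟨by simpa using hz, rfl⟩
  · rintro ⟨h1, rfl⟩
    exact ⟨x, by simpa using h1, rfl⟩

lemma countable_almostTranslations [Countable H] : Countable (almostTranslations H) := by
  have hinj : Function.Injective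
      (fun σ : almostTranslations H => (trPart σ, excGraph σ)) := by
    intro σ τ hst
    obtain ⟨h1, h2⟩ := Prod.mk.inj hst
    apply Subtype.ext
    apply Equiv.ext
    intro x
    by_cases hx : σ.1 x = trPart σ * x
    · by_cases hx' : τ.1 x = trPart τ * x
      · rw [hx, hx', h1]
      · have h3 : (x, τ.1 x) ∈ excGraph σ := by
          rw [h2]
          exact (mem_excGraph τ x _).2 ⟨hx', rfl⟩
        exact absurd hx ((mem_excGraph σ x _).1 h3).1
    · have h3 : (x, σ.1 x) ∈ excGraph τ := by
        rw [← h2]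
        exact (mem_excGraph σ x _).2 ⟨hx, rfl⟩
      exact ((mem_excGraph τ x _).1 h3).2.symm
  exact hinj.countable

/-- Permutations supported in a finite set, as almost translations. -/
noncomputable def embPerm (F : Finset H) (π : Equiv.Perm {x // x ∈ F}) :
    almostTranslations H :=
  ⟨Equiv.Perm.ofSubtype π, 1, by
    refine (Finset.finite_toSet F).subset ?_
    intro x hx
    by_contra hcon
    apply hx
    rw [one_mul]
    exact Equiv.Perm.ofSubtype_apply_of_not_mem π hcon⟩

lemma embPerm_mul (F : Finset H) (π π' : Equiv.Perm {x // x ∈ F}) :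
    embPerm F (π * π') = embPerm F π * embPerm F π' := by
  apply Subtype.ext
  exact map_mul Equiv.Perm.ofSubtype π π'

lemma embPerm_apply_mem (F : Finset H) (π : Equiv.Perm {x // x ∈ F}) (x : H) (hx : x ∈ F) :
    (embPerm F π).1 x = (π ⟨x, hx⟩ : {x // x ∈ F}).1 :=
  Equiv.Perm.ofSubtype_apply_of_mem π hx

/-- The finite set of permutations supported in `F`. -/
noncomputable def permSet (F : Finset H) : Finset (almostTranslations H) :=
  Finset.univ.image (embPerm F)

lemma permSet_nonempty (F : Finset H) : (permSet F).Nonempty := by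
  exact Finset.univ_nonempty.image _

lemma embPerm_injective (F : Finset H) : Function.Injective (embPerm F) := by
  intro π π' h
  apply Equiv.Perm.ofSubtype_injective
  exact congrArg Subtype.val h

lemma sum_permSet (F : Finset H) (φ : almostTranslations H → ℝ) :
    ∑ g ∈ permSet F, φ g = ∑ π : Equiv.Perm {x // x ∈ F}, φ (embPerm F π) := by
  unfold permSet
  rw [Finset.sum_image]
  intro a _ b _ h
  exact embPerm_injective F h

lemma exists_perm (F : Finset H) (n : ℕ) (E E' : Subsets H n) (hE : E.1 ⊆ F) (hE' : E'.1 ⊆ F) :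
    ∃ π : Equiv.Perm {x // x ∈ F}, embPerm F π • E' = E := by
  have hc : ∀ A : Finset H, A ⊆ F →
      Fintype.card {x : {x // x ∈ F} // x.1 ∈ A} = A.card := by
    intro A hA
    rw [← Fintype.card_coe A]
    refine Fintype.card_congr ?_
    exact ⟨fun x => ⟨x.1.1, x.2⟩, fun x => ⟨⟨x.1, hA x.2⟩, x.2⟩, fun _ => rfl, fun _ => rfl⟩
  have hcard : Fintype.card {x : {x // x ∈ F} // x.1 ∈ E'.1} =
      Fintype.card {x : {x // x ∈ F} // x.1 ∈ E.1} := by
    rw [hc _ hE, hc _ hE', E.2, E'.2]
  let e : {x : {x // x ∈ F} // x.1 ∈ E'.1} ≃ {x : {x // x ∈ F} // x.1 ∈ E.1} :=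
    Fintype.equivOfCardEq hcard
  refine ⟨e.extendSubtype, ?_⟩
  have hsub : (embPerm F e.extendSubtype • E').1 ⊆ E.1 := by
    intro x hx
    obtain ⟨y, hy, rfl⟩ := (mem_smul_subsets _ _ _).1 hx
    show (embPerm F e.extendSubtype).1 y ∈ E.1
    rw [embPerm_apply_mem F _ y (hE' hy)]
    exact e.extendSubtype_mem ⟨y, hE' hy⟩ hy
  apply Subtype.ext
  apply Finset.eq_of_subset_of_card_le hsub
  rw [E.2, (embPerm F e.extendSubtype • E').2]

lemma sum_permSet_invariant (F : Finset H) (n : ℕ) (E E' : Subsets H n) (hE : E.1 ⊆ F)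
    (hE' : E'.1 ⊆ F) (φ : Subsets H n → ℝ) :
    ∑ g ∈ permSet F, φ (g • E) = ∑ g ∈ permSet F, φ (g • E') := by
  obtain ⟨π, hπ⟩ := exists_perm F n E E' hE hE'
  rw [sum_permSet, sum_permSet]
  refine Fintype.sum_equiv (Equiv.mulRight π) _ _ ?_
  intro σ
  rw [Equiv.coe_mulRight, embPerm_mul, mul_smul, hπ]

end AlmostTranslations

/-! ### Non-amenability -/

lemma mean_mono {G : Type} {m : Set G → ℝ} (h0 : ∀ A : Set G, 0 ≤ m A)
    (hadd : ∀ A B : Set G, Disjoint A B → m (A ∪ B) = m A + m B) {A B : Set G} (h : A ⊆ B) :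
    m A ≤ m B := by
  have h1 := hadd A (B \ A) Set.disjoint_sdiff_right
  rw [Set.union_sdiff_cancel h] at h1
  have := h0 (B \ A)
  linarith

lemma mean_union_le {G : Type} {m : Set G → ℝ} (h0 : ∀ A : Set G, 0 ≤ m A)
    (hadd : ∀ A B : Set G, Disjoint A B → m (A ∪ B) = m A + m B) (A B : Set G) :
    m (A ∪ B) ≤ m A + m B := by
  have h1 := hadd A (B \ A) Set.disjoint_sdiff_right
  rw [Set.union_sdiff_self] at h1
  have := mean_mono h0 hadd (A := B \ A) (B := B) Set.sdiff_subset
  linarith

lemma free_not_amenable : ¬ IsAmenable (FreeGroup Bool) := by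
  rintro ⟨m, h0, h1, hadd, hinv⟩
  have key : ∀ a : Bool, 1 ≤ m (FreeGroup.startsWith (a, true)) +
      m (FreeGroup.startsWith (a, false)) := by
    intro a
    have hcov : (Set.univ : Set (FreeGroup Bool)) =
        FreeGroup.startsWith (a, false) ∪
          (fun x => (FreeGroup.mk [(a, true)])⁻¹ * x) '' FreeGroup.startsWith (a, true) := by
      apply Eq.symm
      rw [Set.eq_univ_iff_forall]
      intro g
      by_cases hg : g ∈ FreeGroup.startsWith (a, false)
      · exact Or.inl hg
      · right
        refine ⟨FreeGroup.mk [(a, true)] * g, FreeGroup.startsWith_mk_mul g hg, ?_⟩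
        exact inv_mul_cancel_left _ _
    have h2 := mean_union_le h0 hadd (FreeGroup.startsWith (a, false))
      ((fun x => (FreeGroup.mk [(a, true)])⁻¹ * x) '' FreeGroup.startsWith (a, true))
    rw [← hcov, h1, hinv] at h2
    linarith
  have k1 := key true
  have k2 := key false
  have d1 : Disjoint (FreeGroup.startsWith (true, true)) (FreeGroup.startsWith (true, false)) :=
    FreeGroup.startsWith.disjoint_iff_ne.2 (by decide)
  have d2 : Disjoint (FreeGroup.startsWith (false, true)) (FreeGroup.startsWith (false, false)) :=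
    FreeGroup.startsWith.disjoint_iff_ne.2 (by decide)
  have d3 : Disjoint (FreeGroup.startsWith (true, true) ∪ FreeGroup.startsWith (true, false))
      (FreeGroup.startsWith (false, true) ∪ FreeGroup.startsWith (false, false)) := by
    rw [Set.disjoint_union_left, Set.disjoint_union_right, Set.disjoint_union_right]
    refine ⟨⟨?_, ?_⟩, ⟨?_, ?_⟩⟩ <;> exact FreeGroup.startsWith.disjoint_iff_ne.2 (by decide)
  have h3 := hadd _ _ d3
  rw [hadd _ _ d1, hadd _ _ d2] at h3
  have h4 := mean_mono h0 hadd (Set.subset_univ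
    ((FreeGroup.startsWith (true, true) ∪ FreeGroup.startsWith (true, false)) ∪
      (FreeGroup.startsWith (false, true) ∪ FreeGroup.startsWith (false, false))))
  rw [h1] at h4
  linarith

lemma amenable_of_surjective {G Q : Type} [Group G] [Group Q] (π : G →* Q)
    (hπ : Function.Surjective π) (h : IsAmenable G) : IsAmenable Q := by
  obtain ⟨m, h0, h1, hadd, hinv⟩ := h
  refine ⟨fun A => m (π ⁻¹' A), fun A => h0 _, by simpa using h1, ?_, ?_⟩
  · intro A B hAB
    show m (π ⁻¹' (A ∪ B)) = _
    rw [Set.preimage_union]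
    exact hadd _ _ (hAB.preimage π)
  · intro q A
    obtain ⟨g, rfl⟩ := hπ q
    show m (π ⁻¹' ((fun x => π g * x) '' A)) = m (π ⁻¹' A)
    rw [← hinv g (π ⁻¹' A)]
    congr 1
    ext x
    constructor
    · rintro ⟨y, hy, hyx⟩
      refine ⟨g⁻¹ * x, ?_, mul_inv_cancel_left g x⟩
      show π (g⁻¹ * x) ∈ A
      have hyx' : π g * y = π x := hyx
      rw [map_mul, map_inv, ← hyx', inv_mul_cancel_left]
      exact hy
    · rintro ⟨y, hy, rfl⟩
      exact ⟨π y, hy, (map_mul π g y).symm⟩

/-- There is a countable non-amenable group `G` with a faithful action on a set `X` that is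
`n`-Liouville for every `n ≥ 1`. -/
theorem result :
    ∃ (G X : Type) (_ : Group G) (_ : MulAction G X),
      Countable G ∧ FaithfulSMul G X ∧ (∀ n : ℕ, 1 ≤ n → IsNLiouville G X n) ∧
        ¬ IsAmenable G := by
  classical
  refine ⟨almostTranslations (FreeGroup Bool), FreeGroup Bool, inferInstance, inferInstance,
    countable_almostTranslations, ?_, ?_, ?_⟩
  · refine ⟨?_⟩
    intro σ τ h
    apply Subtype.ext
    apply Equiv.ext
    intro x
    exact h x
  · intro n _
    have : Countable (almostTranslations (FreeGroup Bool)) := countable_almostTranslations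
    obtain ⟨gs, hgs⟩ := exists_surjective_nat (almostTranslations (FreeGroup Bool))
    obtain ⟨e, he⟩ := exists_surjective_nat (FreeGroup Bool)
    have hmono : Monotone (fun i => (Finset.range (i + 1)).image e) := by
      intro i j hij
      exact Finset.image_subset_image (Finset.range_mono (by omega))
    have hcov : ∀ x : FreeGroup Bool, ∃ i, x ∈ (Finset.range (i + 1)).image e := by
      intro x
      obtain ⟨i, rfl⟩ := he x
      exact ⟨i, Finset.mem_image_of_mem _ (by simp)⟩
    obtain ⟨μ, hμ, hpos, hL⟩ := engine gs hgs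
      (fun i => (Finset.range (i + 1)).image e) hmono hcov permSet permSet_nonempty
      sum_permSet_invariant
    refine ⟨μ, hμ, ?_, hL n⟩
    have h1 : {g | μ g ≠ 0} = Set.univ := Set.eq_univ_of_forall (fun g => (hpos g).ne')
    unfold NonDegenerate
    rw [h1, Subsemigroup.closure_univ]
  · intro h
    exact free_not_amenable (amenable_of_surjective trHom trHom_surjective h)

end Pool.Agent.Results.MP_2579e4_al.NonAmenableLiouville
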